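import Mathlib

set_option autoImplicit false

/-!
# Detour position number versus detour diameter: the bound `dp(G) ≤ n - D + 1` is false

We exhibit a connected graph `G` of order `11` that has a Hamiltonian path (so its detour diameter
is `D = 10` and `n - D + 1 = 2`) and a detour position set with three vertices.
-/

namespace Pool.Agent.Results.MP_da5e02_co.ThreeLeaves

/-- A walk from `u` to `v` is a `u,v`-detour if it is a path and no `u,v`-path is longer. -/
def IsDetour {V : Type} {G : SimpleGraph V} {u v : V} (p : G.Walk u v) : Prop :=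
  p.IsPath ∧ ∀ q : G.Walk u v, q.IsPath → q.length ≤ p.length

/-- `S` is a detour position set of `G`: for every two distinct `u, v ∈ S`, no `u,v`-detour
contains a vertex of `S` other than `u` and `v`. -/
def IsDetourPositionSet {V : Type} (G : SimpleGraph V) (S : Finset V) : Prop :=
  ∀ u ∈ S, ∀ v ∈ S, u ≠ v → ∀ p : G.Walk u v, IsDetour p → ∀ w ∈ S, w ∈ p.support →
    w = u ∨ w = v

/-- `D` is the detour diameter of `G`: the length of a longest path of `G`. -/
def IsDetourDiameter {V : Type} (G : SimpleGraph V) (D : ℕ) : Prop :=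
  (∃ (u v : V) (p : G.Walk u v), p.IsPath ∧ p.length = D) ∧
    ∀ (u v : V) (p : G.Walk u v), p.IsPath → p.length ≤ D

/-- The neighbours of the eleven vertices of the example. -/
def nb : Fin 11 → List (Fin 11) :=
  ![[1, 6], [0, 2, 7, 8], [1, 3], [2, 4], [3, 5, 7, 9], [4, 6], [0, 5, 7], [1, 4, 6, 8, 10],
    [1, 7, 9], [4, 8], [7]]

/-- The example: a graph on `{0, ..., 10}` with fifteen edges. -/
def G : SimpleGraph (Fin 11) where
  Adj a b := b ∈ nb a
  symm := ⟨by decide⟩
  loopless := ⟨by decide⟩

theorem adj_iff (a b : Fin 11) : G.Adj a b ↔ b ∈ nb a := Iff.rfl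

/-- Enumeration of all extensions of a path ending at `cur`, whose vertices are listed in `vis`,
checking the property `good (last vertex) (list of vertices)`. -/
def chk (good : Fin 11 → List (Fin 11) → Bool) : ℕ → List (Fin 11) → Fin 11 → Bool
  | 0, vis, cur => good cur vis
  | k + 1, vis, cur => good cur vis &&
      (nb cur).all fun w => vis.contains w || chk good k (w :: vis) w

theorem chk_sound (good : Fin 11 → List (Fin 11) → Bool) {u v : Fin 11} (p : G.Walk u v) :
    ∀ (k : ℕ) (vis : List (Fin 11)), chk good k vis u = true → p.IsPath →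
      (∀ w ∈ p.support.tail, w ∉ vis) → p.length ≤ k →
      good v (p.support.tail.reverse ++ vis) = true := by
  induction p with
  | nil =>
    intro k vis h _ _ _
    cases k with
    | zero => simpa [chk] using h
    | succ k =>
      rw [chk, Bool.and_eq_true] at h
      simpa using h.1
  | @cons a b c hab p ih =>
    intro k vis h hp hd hl
    cases k with
    | zero => simp at hl
    | succ k =>
      rw [chk, Bool.and_eq_true, List.all_eq_true] at h
      have h1 := h.2 b hab
      have hb : b ∉ vis := hd b (by simp)
      rw [SimpleGraph.Walk.cons_isPath_iff] at hp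
      have h2 : chk good k (b :: vis) b = true := by
        rw [Bool.or_eq_true] at h1
        rcases h1 with h1 | h1
        · exact absurd (by simpa using h1) hb
        · exact h1
      have hnd := hp.1.support_nodup
      obtain ⟨t, ht⟩ : ∃ t, p.support = b :: t := ⟨_, p.cons_tail_support.symm⟩
      rw [ht] at hnd
      have h3 := ih k (b :: vis) h2 hp.1 (by
        intro w hw
        have hw2 : w ∉ vis := hd w (by
          rw [SimpleGraph.Walk.support_cons, List.tail_cons]
          exact List.mem_of_mem_tail hw)
        have hw3 : w ≠ b := by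
          rintro rfl
          rw [ht] at hw
          exact (List.nodup_cons.1 hnd).1 hw
        simp [hw2, hw3]) (by
        rw [SimpleGraph.Walk.length_cons] at hl
        omega)
      rw [ht] at h3
      rw [SimpleGraph.Walk.support_cons, List.tail_cons, ht, List.reverse_cons]
      simpa using h3

/-- The property checked for the paths starting at `0`. -/
def good0 (v : Fin 11) (l : List (Fin 11)) : Bool :=
  decide ((v = 9 → 10 ∉ l) ∧ (v = 10 → 9 ∈ l → l.length ≤ 9))

/-- The property checked for the paths starting at `9`. -/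
def good9 (v : Fin 11) (l : List (Fin 11)) : Bool :=
  decide ((v = 0 → 10 ∉ l) ∧ (v = 10 → 0 ∈ l → l.length ≤ 9))

/-- The property checked for the paths starting at `10`. -/
def good10 (v : Fin 11) (l : List (Fin 11)) : Bool :=
  decide ((v = 0 → 9 ∈ l → l.length ≤ 9) ∧ (v = 9 → 0 ∈ l → l.length ≤ 9))

theorem c0 : chk good0 11 [0] 0 = true := by decide +kernel

theorem c9 : chk good9 11 [9] 9 = true := by decide +kernel

theorem c10 : chk good10 11 [10] 10 = true := by decide +kernel

theorem use (good : Fin 11 → List (Fin 11) → Bool) {u v : Fin 11}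
    (h : chk good 11 [u] u = true) (p : G.Walk u v) (hp : p.IsPath) :
    good v p.support.reverse = true := by
  have hnd := hp.support_nodup
  obtain ⟨t, ht⟩ : ∃ t, p.support = u :: t := ⟨_, p.cons_tail_support.symm⟩
  rw [ht] at hnd
  have h1 := chk_sound good p 11 [u] h hp (by
    intro w hw h2
    rw [ht] at hw
    rw [List.mem_singleton] at h2
    subst h2
    exact (List.nodup_cons.1 hnd).1 hw) (by
    have := hp.length_lt
    simp at this
    omega)
  rw [ht] at h1
  rw [ht, List.reverse_cons]
  exact h1

theorem a (x y : Fin 11) (h : y ∈ nb x) : G.Adj x y := h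

/-- The path with vertices `10, 7, 8, 1, 2, 3, 4, 5, 6, 0`. -/
def w10_0 : G.Walk 10 0 :=
  .cons (v := 7) (a 10 7 (by decide)) <|
  .cons (v := 8) (a 7 8 (by decide)) <|
  .cons (v := 1) (a 8 1 (by decide)) <|
  .cons (v := 2) (a 1 2 (by decide)) <|
  .cons (v := 3) (a 2 3 (by decide)) <|
  .cons (v := 4) (a 3 4 (by decide)) <|
  .cons (v := 5) (a 4 5 (by decide)) <|
  .cons (v := 6) (a 5 6 (by decide)) <|
  .cons (v := 0) (a 6 0 (by decide)) <|
  .nil

theorem w10_0_path : w10_0.IsPath := by
  rw [SimpleGraph.Walk.isPath_def]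
  decide

/-- The path with vertices `10, 7, 6, 5, 4, 3, 2, 1, 8, 9`. -/
def w10_9 : G.Walk 10 9 :=
  .cons (v := 7) (a 10 7 (by decide)) <|
  .cons (v := 6) (a 7 6 (by decide)) <|
  .cons (v := 5) (a 6 5 (by decide)) <|
  .cons (v := 4) (a 5 4 (by decide)) <|
  .cons (v := 3) (a 4 3 (by decide)) <|
  .cons (v := 2) (a 3 2 (by decide)) <|
  .cons (v := 1) (a 2 1 (by decide)) <|
  .cons (v := 8) (a 1 8 (by decide)) <|
  .cons (v := 9) (a 8 9 (by decide)) <|
  .nil

theorem w10_9_path : w10_9.IsPath := by
  rw [SimpleGraph.Walk.isPath_def]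
  decide

/-- The path with vertices `10, 7, 8, 9, 4, 3, 2, 1, 0, 6, 5`. -/
def wH : G.Walk 10 5 :=
  .cons (v := 7) (a 10 7 (by decide)) <|
  .cons (v := 8) (a 7 8 (by decide)) <|
  .cons (v := 9) (a 8 9 (by decide)) <|
  .cons (v := 4) (a 9 4 (by decide)) <|
  .cons (v := 3) (a 4 3 (by decide)) <|
  .cons (v := 2) (a 3 2 (by decide)) <|
  .cons (v := 1) (a 2 1 (by decide)) <|
  .cons (v := 0) (a 1 0 (by decide)) <|
  .cons (v := 6) (a 0 6 (by decide)) <|
  .cons (v := 5) (a 6 5 (by decide)) <|
  .nil

theorem wH_path : wH.IsPath := by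
  rw [SimpleGraph.Walk.isPath_def]
  decide

theorem connected : G.Connected := by
  rw [SimpleGraph.connected_iff_exists_forall_reachable]
  refine ⟨10, fun w => ?_⟩
  have h : w ∈ wH.support := by
    revert w
    decide
  exact ⟨wH.takeUntil w h⟩

theorem detourDiameter : IsDetourDiameter G 10 := by
  refine ⟨⟨10, 5, wH, wH_path, rfl⟩, fun u v p hp => ?_⟩
  have := hp.length_lt
  simp at this
  omega

theorem len_support {u v : Fin 11} (q : G.Walk u v) (hq : q.IsPath) (hl : q.length = 9)
    (p : G.Walk u v) (hp : IsDetour p) : ¬ p.support.reverse.length ≤ 9 := by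
  have h := hp.2 q hq
  rw [List.length_reverse, SimpleGraph.Walk.length_support]
  omega

theorem detourPosition : IsDetourPositionSet G {0, 9, 10} := by
  intro u hu v hv huv p hp w hw hwp
  have h0 : w ∈ p.support.reverse := List.mem_reverse.2 hwp
  simp only [Finset.mem_insert, Finset.mem_singleton] at hu hv hw
  by_contra hne
  rw [not_or] at hne
  rcases hu with rfl | rfl | rfl <;> rcases hv with rfl | rfl | rfl
  · exact huv rfl
  · obtain rfl : w = 10 := by tauto
    exact (of_decide_eq_true (use good0 c0 p hp.1)).1 rfl h0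
  · obtain rfl : w = 9 := by tauto
    exact len_support w10_0.reverse w10_0_path.reverse (by decide) p hp
      ((of_decide_eq_true (use good0 c0 p hp.1)).2 rfl h0)
  · obtain rfl : w = 10 := by tauto
    exact (of_decide_eq_true (use good9 c9 p hp.1)).1 rfl h0
  · exact huv rfl
  · obtain rfl : w = 0 := by tauto
    exact len_support w10_9.reverse w10_9_path.reverse (by decide) p hp
      ((of_decide_eq_true (use good9 c9 p hp.1)).2 rfl h0)
  · obtain rfl : w = 9 := by tauto
    exact len_support w10_0 w10_0_path (by decide) p hp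
      ((of_decide_eq_true (use good10 c10 p hp.1)).1 rfl h0)
  · obtain rfl : w = 0 := by tauto
    exact len_support w10_9 w10_9_path (by decide) p hp
      ((of_decide_eq_true (use good10 c10 p hp.1)).2 rfl h0)
  · exact huv rfl

/-- There is a connected graph `G` of order `n` with detour diameter `D` which has a detour
position set of more than `n - D + 1` vertices. -/
theorem result : ∃ (n D : ℕ) (G : SimpleGraph (Fin n)) (S : Finset (Fin n)),
    G.Connected ∧ IsDetourDiameter G D ∧ IsDetourPositionSet G S ∧ n + 1 < D + S.card :=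
  ⟨11, 10, G, {0, 9, 10}, connected, detourDiameter, detourPosition, by decide⟩

end Pool.Agent.Results.MP_da5e02_co.ThreeLeaves
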